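import Pool.Agent.H242R3.ES.Stmts

set_option autoImplicit false

/-! Task C4 of project H242-ES: every ridge is contained in exactly two facets. -/

namespace Pool.Agent.H224R3.ES

open Finset Pool.Agent.H242R3.ES

variable {ι E : Type} [Fintype ι] [AddCommGroup E] [Module ℝ E] [FiniteDimensional ℝ E]

lemma ker_finrank (h : E →ₗ[ℝ] ℝ) (hne : h ≠ 0) :
    Module.finrank ℝ (LinearMap.ker h) + 1 = Module.finrank ℝ E :=
  Module.Dual.finrank_ker_add_one_of_ne_zero hne

lemma span_le_ker (V : ι → E) (S : Set ι) (h : E →ₗ[ℝ] ℝ) (hz : ∀ i ∈ S, h (V i) = 0) :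
    Submodule.span ℝ (Set.range (fun i : S => V i)) ≤ LinearMap.ker h := by
  rw [Submodule.span_le]
  rintro _ ⟨i, rfl⟩
  exact hz i i.2

lemma finrank_span (V : ι → E) (Z : Finset ι)
    (hli : LinearIndependent ℝ (fun i : (Z : Set ι) => V i)) :
    Module.finrank ℝ (Submodule.span ℝ (Set.range (fun i : (Z : Set ι) => V i))) = Z.card := by
  rw [finrank_span_eq_card hli]
  simp

lemma card_le (V : ι → E) (Z : Finset ι) (h : E →ₗ[ℝ] ℝ) (hne : h ≠ 0)
    (hz : ∀ i ∈ Z, h (V i) = 0) (hli : LinearIndependent ℝ (fun i : (Z : Set ι) => V i)) :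
    Z.card + 1 ≤ Module.finrank ℝ E := by
  rw [← ker_finrank h hne, ← finrank_span V Z hli]
  have := Submodule.finrank_mono (span_le_ker V (Z : Set ι) h hz)
  omega

lemma span_eq_ker (V : ι → E) (Z : Finset ι) (h : E →ₗ[ℝ] ℝ) (hne : h ≠ 0)
    (hz : ∀ i ∈ Z, h (V i) = 0) (hli : LinearIndependent ℝ (fun i : (Z : Set ι) => V i))
    (hc : Z.card + 1 = Module.finrank ℝ E) :
    Submodule.span ℝ (Set.range (fun i : (Z : Set ι) => V i)) = LinearMap.ker h := by
  apply Submodule.eq_of_le_of_finrank_eq (span_le_ker V (Z : Set ι) h hz)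
  have h1 := ker_finrank h hne
  rw [finrank_span V Z hli]
  omega

/-- prescribed values on an independent family -/
lemma exists_functional (V : ι → E) (S : Set ι) (hli : LinearIndependent ℝ (fun i : S => V i))
    (c : S → ℝ) : ∃ q : E →ₗ[ℝ] ℝ, ∀ i : S, q (V i) = c i := by
  obtain ⟨g, hg⟩ := LinearMap.exists_extend ((Module.Basis.span hli).constr ℝ c)
  refine ⟨g, fun i => ?_⟩
  have h1 : g ((Module.Basis.span hli i : _)) = ((Module.Basis.span hli).constr ℝ c)
      (Module.Basis.span hli i) := by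
    rw [← hg]
    rfl
  rw [Module.Basis.constr_basis] at h1
  rw [← h1, Module.Basis.span_apply]

theorem taskC4 : TaskC4 := by
  classical
  intro ι E _ _ _ _ V hV S hS hSu hcard j hj _
  obtain ⟨l, hl0, hlz⟩ := hS
  have hli := hV.simp _ ⟨l, hl0, hlz⟩ hSu
  have hlS : ∀ i ∈ S, l (V i) = 0 := fun i hi => (hlz i).1 (Finset.mem_coe.2 hi)
  have hlpos : ∀ i, i ∉ S → 0 < l (V i) := fun i hi =>
    lt_of_le_of_ne (hl0 i) (fun h => hi (Finset.mem_coe.1 ((hlz i).2 h.symm)))
  obtain ⟨q, hq⟩ := exists_functional V (S : Set ι) hli (fun i => if (i : ι) = j then 1 else 0)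
  have hqj : q (V j) = 1 := by
    have := hq ⟨j, hj⟩
    simpa using this
  have hqi : ∀ i ∈ S, i ≠ j → q (V i) = 0 := by
    intro i hi hij
    have := hq ⟨i, hi⟩
    simpa [hij] using this
  -- the maximal ratio
  have hne : (univ.filter (fun k => k ∉ S)).Nonempty := by
    obtain ⟨k, hk⟩ := (Set.ne_univ_iff_exists_notMem _).1 hSu
    exact ⟨k, Finset.mem_filter.2 ⟨Finset.mem_univ _, fun h => hk (Finset.mem_coe.2 h)⟩⟩
  obtain ⟨k0, hk0, hmax⟩ := Finset.exists_max_image (univ.filter (fun k => k ∉ S))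
    (fun k => -(q (V k) / l (V k))) hne
  have hk0S : k0 ∉ S := (Finset.mem_filter.1 hk0).2
  have hmax' : ∀ k, k ∉ S → -(q (V k) / l (V k)) ≤ -(q (V k0) / l (V k0)) := fun k hk =>
    hmax k (Finset.mem_filter.2 ⟨Finset.mem_univ _, hk⟩)
  have hlk0 := hlpos k0 hk0S
  set t : ℝ := -(q (V k0) / l (V k0)) with ht
  set h : E →ₗ[ℝ] ℝ := q + t • l with hh
  have hval : ∀ x, h x = q x + t * l x := fun x => rfl
  have hhj : h (V j) = 1 := by rw [hval, hqj, hlS j hj]; ring
  have hhi : ∀ i ∈ S, i ≠ j → h (V i) = 0 := by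
    intro i hi hij
    rw [hval, hqi i hi hij, hlS i hi]; ring
  have hhk : ∀ k, k ∉ S → 0 ≤ h (V k) := by
    intro k hk
    have h1 := hmax' k hk
    have h2 := hlpos k hk
    rw [hval]
    have h3 : q (V k) = (q (V k) / l (V k)) * l (V k) := by field_simp
    rw [h3, ← add_mul]
    exact mul_nonneg (by linarith) h2.le
  have hhk0 : h (V k0) = 0 := by
    rw [hval, ht]
    field_simp
    ring
  have hh0 : ∀ i, 0 ≤ h (V i) := by
    intro i
    by_cases hi : i ∈ S
    · by_cases hij : i = j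
      · rw [hij, hhj]; exact zero_le_one
      · rw [hhi i hi hij]
    · exact hhk i hi
  have hhne : h ≠ 0 := by
    intro h0
    rw [h0] at hhj
    simp at hhj
  set Z : Finset ι := univ.filter (fun i => h (V i) = 0) with hZ
  have hZm : ∀ i, i ∈ Z ↔ h (V i) = 0 := fun i => by simp [hZ]
  have hjZ : j ∉ Z := fun hjz => by
    rw [hZm, hhj] at hjz
    exact one_ne_zero hjz
  have hZface : Face V (Z : Set ι) := ⟨h, hh0, fun i => by rw [Finset.mem_coe, hZm]⟩
  have hZu : (Z : Set ι) ≠ Set.univ := by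
    intro hu
    exact hjZ (Finset.mem_coe.1 (by rw [hu]; exact Set.mem_univ _))
  have hZli := hV.simp _ hZface hZu
  have hZle := card_le V Z h hhne (fun i hi => (hZm i).1 hi) hZli
  have hsub : S.erase j ⊆ Z := by
    intro i hi
    rw [Finset.mem_erase] at hi
    exact (hZm i).2 (hhi i hi.2 hi.1)
  have hk0Z : k0 ∈ Z := (hZm k0).2 hhk0
  have hZge : S.card ≤ Z.card := by
    have h1 : insert k0 (S.erase j) ⊆ Z := Finset.insert_subset hk0Z hsub
    have h2 := Finset.card_le_card h1
    rw [Finset.card_insert_of_notMem (fun h3 => hk0S (Finset.mem_of_mem_erase h3)),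
      Finset.card_erase_of_mem hj] at h2
    have h4 := Finset.card_pos.2 ⟨j, hj⟩
    omega
  have hZc : Z.card = S.card := by omega
  refine ⟨Z, ⟨⟨hZface, hZu, hZc⟩, fun h1 => hjZ (h1 ▸ hj), hsub⟩, ?_⟩
  -- uniqueness
  rintro S'' ⟨⟨⟨h'', h''0, h''z⟩, hSu'', hc''⟩, hne'', hsub''⟩
  have hj'' : j ∉ S'' := by
    intro hjs
    apply hne''
    have : S ⊆ S'' := by
      intro i hi
      by_cases hij : i = j
      · rw [hij]; exact hjs
      · exact hsub'' (Finset.mem_erase.2 ⟨hij, hi⟩)
    exact (Finset.eq_of_subset_of_card_le this hc''.le).symm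
  obtain ⟨k', hk', hk'2⟩ : ∃ k' ∈ S'', k' ∉ S.erase j := by
    by_contra hcon
    push Not at hcon
    have h1 := Finset.card_le_card (show S'' ⊆ S.erase j from hcon)
    rw [Finset.card_erase_of_mem hj] at h1
    have h4 := Finset.card_pos.2 ⟨j, hj⟩
    omega
  have hk'S : k' ∉ S := by
    intro h1
    apply hk'2
    refine Finset.mem_erase.2 ⟨fun h2 => hj'' (h2 ▸ hk'), h1⟩
  set a := h'' (V j) with ha
  have hapos : 0 < a := lt_of_le_of_ne (h''0 j) (fun h1 => hj'' (Finset.mem_coe.1 ((h''z j).2 h1.symm)))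
  set b := (h'' (V k0) - a * q (V k0)) / l (V k0) with hb
  have hlne : l ≠ 0 := by
    intro h0
    rw [h0] at hlk0
    simp at hlk0
  have hspan := span_eq_ker V S l hlne hlS hli hcard
  have hD : ∀ x, h'' x = a * q x + b * l x := by
    set D : E →ₗ[ℝ] ℝ := h'' - a • q - b • l with hDd
    have hDval : ∀ x, D x = h'' x - a * q x - b * l x := fun x => rfl
    have hDS : ∀ i ∈ (S : Set ι), D (V i) = 0 := by
      intro i hi
      have hi' : i ∈ S := Finset.mem_coe.1 hi
      rw [hDval, hlS i hi']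
      by_cases hij : i = j
      · rw [hij, hqj, ← ha]; ring
      · rw [hqi i hi' hij, (h''z i).1 (Finset.mem_coe.2 (hsub'' (Finset.mem_erase.2 ⟨hij, hi'⟩)))]
        ring
    have hker : ∀ x, l x = 0 → D x = 0 := by
      intro x hx
      have h1 : x ∈ LinearMap.ker l := hx
      rw [← hspan] at h1
      exact span_le_ker V (S : Set ι) D hDS h1
    have hDk0 : D (V k0) = 0 := by
      rw [hDval, hb]
      field_simp
      ring
    intro x
    have h1 : D (x - (l x / l (V k0)) • V k0) = 0 := by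
      apply hker
      rw [map_sub, map_smul, smul_eq_mul]
      field_simp
      ring
    rw [map_sub, map_smul, hDk0, smul_zero, sub_zero, hDval] at h1
    linarith
  -- compare
  have hlk' := hlpos k' hk'S
  have e1 : a * q (V k') + b * l (V k') = 0 := by
    rw [← hD]
    exact (h''z k').1 (Finset.mem_coe.2 hk')
  have e2 : 0 ≤ a * q (V k0) + b * l (V k0) := by
    rw [← hD]
    exact h''0 k0
  have e3 := hmax' k' hk'S
  have hbt : b = a * t := by
    have h1 : b = a * -(q (V k') / l (V k')) := by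
      field_simp
      linarith
    have h2 : a * t ≤ b := by
      rw [ht]
      have h3 : a * -(q (V k0) / l (V k0)) = -(a * q (V k0)) / l (V k0) := by ring
      rw [h3, div_le_iff₀ hlk0]
      linarith
    have h3 : b ≤ a * t := by
      rw [h1]
      exact mul_le_mul_of_nonneg_left e3 hapos.le
    linarith
  ext i
  rw [hZm]
  have h1 : i ∈ S'' ↔ h'' (V i) = 0 := by
    rw [← h''z i, Finset.mem_coe]
  have h2 : h'' (V i) = a * h (V i) := by
    rw [hD, hbt, hval]; ring
  rw [h1, h2]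
  constructor
  · intro h3
    rcases mul_eq_zero.1 h3 with h4 | h4
    · exact absurd h4 hapos.ne'
    · exact h4
  · intro h3
    rw [h3, mul_zero]

theorem t : TaskC4 := taskC4

end Pool.Agent.H224R3.ES
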