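import Pool.Agent.H242R3.ES.StmtsK

set_option autoImplicit false

/-! Task K10a of project H242-ES: connectivity of the graph of a face and outside a face. -/

open scoped Classical

namespace Pool.Agent.H224R3.ES.K10a

open Finset Pool.Agent.H242R3.ES

/-- moving in the direction of a functional -/
lemma move {ι E : Type} [Fintype ι] [AddCommGroup E] [Module ℝ E] [FiniteDimensional ℝ E]
    (hGen : GenV) (V : ι → E) (hv : ∀ i, Face V {i}) (S : Set ι) (hS : Face V S) (i w : ι)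
    (hi : i ∈ S) (hw : w ∈ S) (h : E →ₗ[ℝ] ℝ) (hhi : h (V i) = 0) (hhw : h (V w) < 0) :
    ∃ k ∈ S, k ≠ i ∧ Face V {i, k} ∧ h (V k) < 0 := by
  obtain ⟨y, a, ha0, ha, heq⟩ := hGen ι E V hv i S hS hi w hw
  by_contra hcon
  push Not at hcon
  have h1 : h (V w) = ∑ k, a k * h (V k) := by
    rw [heq, map_add, map_smul, hhi, smul_zero, zero_add, map_sum]
    refine Finset.sum_congr rfl fun k _ => ?_
    rw [map_smul, smul_eq_mul]
  have h2 : 0 ≤ ∑ k, a k * h (V k) := by
    refine Finset.sum_nonneg fun k _ => ?_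
    by_cases hk : a k = 0
    · rw [hk, zero_mul]
    · obtain ⟨h3, h4, h5⟩ := ha k hk
      exact mul_nonneg (ha0 k) (hcon k h3 h4 h5)
  linarith

lemma sconn (hGen : GenV) : SConn := by
  intro ι E _ _ _ _ V hv h0 S hS M hM hcl w hw
  obtain ⟨e, he0, hez⟩ := h0
  have he : ∀ i, 0 < e (V i) := fun i =>
    lt_of_le_of_ne (he0 i) (fun h => by simpa using (hez i).2 h.symm)
  obtain ⟨g, hg0, hgz⟩ := hv w
  obtain ⟨i0, hi0M, hi0S⟩ := hM
  obtain ⟨i, hi, hmin⟩ := Finset.exists_min_image (Finset.univ.filter (fun i => i ∈ M ∧ i ∈ S))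
    (fun i => g (V i) / e (V i)) ⟨i0, Finset.mem_filter.2 ⟨Finset.mem_univ _, hi0M, hi0S⟩⟩
  have hi' := (Finset.mem_filter.1 hi).2
  by_cases hiw : i = w
  · rw [← hiw]; exact hi'.1
  · exfalso
    have hgi : 0 < g (V i) := lt_of_le_of_ne (hg0 i) (fun h => hiw (by simpa using (hgz i).2 h.symm))
    have hgw : g (V w) = 0 := (hgz w).1 rfl
    set ρ := g (V i) / e (V i) with hρ
    have hρ0 : 0 < ρ := div_pos hgi (he i)
    have hval : ∀ x, (g - ρ • e) x = g x - ρ * e x := fun x => rfl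
    obtain ⟨k, hkS, hki, hkF, hk⟩ := move hGen V hv S hS i w hi'.2 hw (g - ρ • e)
      (by rw [hval, hρ, div_mul_cancel₀ _ (he i).ne', sub_self])
      (by
        rw [hval, hgw, zero_sub, neg_lt_zero]
        exact mul_pos hρ0 (he w))
    have hkM := hcl i k hi'.1 hi'.2 hkS hki hkF
    have h1 := hmin k (Finset.mem_filter.2 ⟨Finset.mem_univ _, hkM, hkS⟩)
    rw [hval] at hk
    have h2 : g (V k) / e (V k) < ρ := by
      rw [div_lt_iff₀ (he k)]
      linarith
    exact absurd h1 (not_le.2 h2)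

lemma cconn (hGen : GenV) : CConn := by
  intro ι E _ _ _ _ V hv h0 R hR M hM hcl w hw
  have hs := sconn hGen ι E V hv h0
  obtain ⟨e, he0, hez⟩ := h0
  have he : ∀ i, 0 < e (V i) := fun i =>
    lt_of_le_of_ne (he0 i) (fun h => by simpa using (hez i).2 h.symm)
  obtain ⟨l, hl0, hlz⟩ := hR
  have hlpos : ∀ i, i ∉ R → 0 < l (V i) := fun i hi =>
    lt_of_le_of_ne (hl0 i) (fun h => hi ((hlz i).2 h.symm))
  -- the maximum
  obtain ⟨i1, hi1, hmax1⟩ := Finset.exists_max_image (Finset.univ : Finset ι)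
    (fun i => l (V i) / e (V i)) ⟨w, Finset.mem_univ _⟩
  set t := l (V i1) / e (V i1) with ht
  have ht0 : 0 < t := by
    have h1 := hmax1 w (Finset.mem_univ _)
    have h2 : 0 < l (V w) / e (V w) := div_pos (hlpos w hw) (he w)
    exact lt_of_lt_of_le h2 h1
  have hle : ∀ i, l (V i) ≤ t * e (V i) := by
    intro i
    have h1 := hmax1 i (Finset.mem_univ _)
    have h1' : l (V i) / e (V i) ≤ t := h1
    rwa [div_le_iff₀ (he i)] at h1'
  set T : Set ι := {i | l (V i) = t * e (V i)} with hT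
  have hTface : Face V T := by
    refine ⟨t • e - l, fun i => ?_, fun i => ?_⟩
    · show 0 ≤ t * e (V i) - l (V i)
      linarith [hle i]
    · show l (V i) = t * e (V i) ↔ t * e (V i) - l (V i) = 0
      constructor <;> intro h <;> linarith
  have hTR : ∀ i ∈ T, i ∉ R := by
    intro i hi hiR
    have h1 : l (V i) = t * e (V i) := hi
    rw [(hlz i).1 hiR] at h1
    have := mul_pos ht0 (he i)
    linarith
  have huniv : Face V Set.univ := ⟨0, by simp, by simp⟩
  -- closed sets contain a maximiser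
  have key : ∀ M' : Set ι, (∃ i ∈ M', i ∉ R) →
      (∀ i k, i ∈ M' → i ∉ R → k ∉ R → k ≠ i → Face V {i, k} → k ∈ M') → ∃ i ∈ M', i ∈ T := by
    intro M' hM' hcl'
    obtain ⟨j0, hj0M, hj0R⟩ := hM'
    obtain ⟨i, hi, hmax⟩ := Finset.exists_max_image
      (Finset.univ.filter (fun i => i ∈ M' ∧ i ∉ R))
      (fun i => l (V i) / e (V i)) ⟨j0, Finset.mem_filter.2 ⟨Finset.mem_univ _, hj0M, hj0R⟩⟩
    have hi' := (Finset.mem_filter.1 hi).2
    refine ⟨i, hi'.1, ?_⟩
    by_contra hiT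
    set ρ := l (V i) / e (V i) with hρ
    have hρ0 : 0 < ρ := div_pos (hlpos i hi'.2) (he i)
    have hρe : l (V i) = ρ * e (V i) := by
      rw [hρ, div_mul_cancel₀ _ (he i).ne']
    have hρt : ρ < t := by
      have h1 : ρ ≤ t := hmax1 i (Finset.mem_univ _)
      refine lt_of_le_of_ne h1 (fun h => hiT ?_)
      show l (V i) = t * e (V i)
      rw [← h]; exact hρe
    have hval : ∀ x, (ρ • e - l) x = ρ * e x - l x := fun x => rfl
    have hi1e : l (V i1) = t * e (V i1) := by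
      rw [ht, div_mul_cancel₀ _ (he i1).ne']
    obtain ⟨k, -, hki, hkF, hk⟩ := move hGen V hv Set.univ huniv i i1 (Set.mem_univ _)
      (Set.mem_univ _) (ρ • e - l) (by rw [hval, hρe, sub_self])
      (by
        rw [hval, hi1e]
        have := mul_lt_mul_of_pos_right hρt (he i1)
        linarith)
    rw [hval] at hk
    have hkl : 0 < l (V k) := by
      have := mul_pos hρ0 (he k)
      linarith
    have hkR : k ∉ R := fun h => by
      rw [(hlz k).1 h] at hkl
      exact lt_irrefl _ hkl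
    have hkM := hcl' i k hi'.1 hi'.2 hkR hki hkF
    have h1 := hmax k (Finset.mem_filter.2 ⟨Finset.mem_univ _, hkM, hkR⟩)
    have h2 : ρ < l (V k) / e (V k) := by
      rw [lt_div_iff₀ (he k)]
      linarith
    exact absurd h1 (not_le.2 h2)
  have hTM : T ⊆ M := by
    refine hs T hTface M (key M hM hcl) ?_
    intro i k hiM hiT hkT hki hF
    exact hcl i k hiM (hTR i hiT) (hTR k hkT) hki hF
  by_contra hwM
  obtain ⟨i, hi, hiT⟩ := key {j | j ∉ R ∧ j ∉ M} ⟨w, ⟨hw, hwM⟩, hw⟩ (by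
    rintro i k ⟨hiR, hiM⟩ - hkR hki hF
    refine ⟨hkR, fun hkM => hiM ?_⟩
    refine hcl k i hkM hkR hiR (Ne.symm hki) ?_
    rw [Set.pair_comm]
    exact hF)
  exact hi.2 (hTM hiT)

theorem t : TaskK10a := fun hGen => ⟨cconn hGen, sconn hGen⟩

end Pool.Agent.H224R3.ES.K10a
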