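import Pool.Agent.H242R3.ES.StmtsK

set_option autoImplicit false

/-! Task K3 of project H242-ES: sum of the normals at an edge. -/

open scoped Classical

namespace Pool.Agent.H224R3.ES.K3

open Finset Pool.Agent.H242R3.ES

lemma B_lin (x a b : LV 3) (s t : ℝ) : B x (s • a + t • b) = s * B x a + t * B x b := by
  unfold B
  simp only [Fin.sum_univ_three, Pi.add_apply, Pi.smul_apply, smul_eq_mul]
  ring

lemma B_comm (x y : LV 3) : B x y = B y x := by
  unfold B
  simp only [Fin.sum_univ_three]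
  ring

/-- the functional `B v` -/
noncomputable def Bl (v : LV 3) : LV 3 →ₗ[ℝ] ℝ where
  toFun := B v
  map_add' a b := by
    have := B_lin v a b 1 1
    simpa using this
  map_smul' s a := by
    have := B_lin v a 0 s 0
    simpa using this

lemma Bl_apply (v x : LV 3) : Bl v x = B v x := rfl

/-- the orthogonal complement of two vectors is spanned by two independent vectors -/
lemma mem_span_of (v1 v2 w n1 n2 x : LV 3) (h11 : B v1 v1 = 1) (h22 : B v2 v2 = 1)
    (h12 : B v1 v2 = -1) (hw1 : B v1 w < 0) (hw2 : B v2 w < 0)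
    (a1 : B v1 n1 = 0) (a2 : B v2 n1 = 0) (b1 : B v1 n2 = 0) (b2 : B v2 n2 = 0)
    (c1 : B v1 x = 0) (c2 : B v2 x = 0) (hli : LinearIndependent ℝ ![n1, n2]) :
    ∃ α β : ℝ, α • n1 + β • n2 = x := by
  set φ : LV 3 →ₗ[ℝ] ℝ × ℝ := (Bl v1).prod (Bl v2) with hφ
  have hφa : ∀ y, φ y = (B v1 y, B v2 y) := fun y => rfl
  have hsurj : LinearMap.range φ = ⊤ := by
    rw [LinearMap.range_eq_top]
    rintro ⟨p, q⟩
    have hne : B v1 w + B v2 w ≠ 0 := by linarith
    refine ⟨(p - (p + q) / (B v1 w + B v2 w) * B v1 w) • v1 +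
      ((p + q) / (B v1 w + B v2 w)) • w, ?_⟩
    rw [hφa, B_lin, B_lin, h11, B_comm v2 v1, h12]
    ext
    · show _ = p
      simp only []
      ring
    · show _ = q
      simp only []
      field_simp
      ring
  have hker : Module.finrank ℝ (LinearMap.ker φ) = 2 := by
    have h1 := LinearMap.finrank_range_add_finrank_ker φ
    rw [hsurj, finrank_top, Module.finrank_prod, Module.finrank_self,
      Module.finrank_fintype_fun_eq_card] at h1
    have h2 : Fintype.card (Option (Fin 3)) = 4 := by simp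
    rw [h2] at h1
    omega
  have hle : Submodule.span ℝ (Set.range ![n1, n2]) ≤ LinearMap.ker φ := by
    rw [Submodule.span_le]
    rintro _ ⟨i, rfl⟩
    fin_cases i
    · show φ n1 = 0
      rw [hφa, a1, a2]; rfl
    · show φ n2 = 0
      rw [hφa, b1, b2]; rfl
  have heq : Submodule.span ℝ (Set.range ![n1, n2]) = LinearMap.ker φ := by
    apply Submodule.eq_of_le_of_finrank_eq hle
    rw [finrank_span_eq_card hli, hker]
    simp
  have hx : x ∈ LinearMap.ker φ := by
    show φ x = 0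
    rw [hφa, c1, c2]; rfl
  rw [← heq] at hx
  have hr : Set.range ![n1, n2] = {n1, n2} := by
    ext y
    simp [eq_comm]
    tauto
  rw [hr, Submodule.mem_span_pair] at hx
  exact hx

theorem t : TaskK3 := by
  intro hE ι _ V hV N hN F G hF hG _ hFG
  obtain ⟨h1, h2, h3, -, -⟩ := hE ι V hV
  obtain ⟨i, j, hij, he, hface⟩ := (h1 (F ∩ G)).1 hFG
  set X := SY V (F ∩ G) with hX
  have hXe : X = V i + V j := by
    rw [hX, he, h2 i j hij]
  obtain ⟨hXX, hXi⟩ := h3 (F ∩ G) hFG
  obtain ⟨nF, hNF⟩ := hN F hF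
  obtain ⟨nG, hNG⟩ := hN G hG
  obtain ⟨w, hww, hw⟩ := hV.tw
  have hi : i ∈ F ∩ G := by rw [he]; simp
  have hj : j ∈ F ∩ G := by rw [he]; simp
  -- elements of the differences
  have hk : ∃ k, k ∈ F ∧ k ∉ G := by
    by_contra hcon
    push Not at hcon
    have h4 : F ∩ G = F := Set.inter_eq_left.2 hcon
    have h5 := hFG.2
    rw [h4, hF.2] at h5
    omega
  have hk' : ∃ k, k ∈ G ∧ k ∉ F := by
    by_contra hcon
    push Not at hcon
    have h4 : F ∩ G = G := Set.inter_eq_right.2 hcon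
    have h5 := hFG.2
    rw [h4, hG.2] at h5
    omega
  obtain ⟨k, hkF, hkG⟩ := hk
  obtain ⟨k', hk'G, hk'F⟩ := hk'
  have z1 : B (V k) (N F) = 0 := (hNF k).2.2 hkF
  have z2 : B (V k) (N G) < 0 := lt_of_le_of_ne (hNG k).1 (fun h => hkG ((hNG k).2.1 h))
  have z3 : B (V k') (N G) = 0 := (hNG k').2.2 hk'G
  have z4 : B (V k') (N F) < 0 := lt_of_le_of_ne (hNF k').1 (fun h => hk'F ((hNF k').2.1 h))
  have x1 : B (V k) X < 0 := lt_of_le_of_ne (hXi k).1 (fun h => hkG ((hXi k).2.1 h).2)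
  have x2 : B (V k') X < 0 := lt_of_le_of_ne (hXi k').1 (fun h => hk'F ((hXi k').2.1 h).1)
  have hli : LinearIndependent ℝ ![N F, N G] := by
    rw [LinearIndependent.pair_iff]
    intro s t hst
    have e1 : B (V k) (s • N F + t • N G) = 0 := by
      rw [hst]; unfold B; simp
    have e2 : B (V k') (s • N F + t • N G) = 0 := by
      rw [hst]; unfold B; simp
    rw [B_lin, z1, mul_zero, zero_add] at e1
    rw [B_lin, z3, mul_zero, add_zero] at e2
    exact ⟨(mul_eq_zero.1 e2).resolve_right z4.ne, (mul_eq_zero.1 e1).resolve_right z2.ne⟩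
  obtain ⟨α, β, hαβ⟩ := mem_span_of (V i) (V j) w (N F) (N G) X (hV.norm i) (hV.norm j)
    (hV.edge i j hij hface) (hw i) (hw j) ((hNF i).2.2 hi.1) ((hNF j).2.2 hj.1)
    ((hNG i).2.2 hi.2) ((hNG j).2.2 hj.2) ((hXi i).2.2 hi) ((hXi j).2.2 hj) hli
  -- orthogonality relations
  have y1 : B X (N F) = 0 := by
    have := B_lin (N F) (V i) (V j) 1 1
    rw [one_smul, one_smul, ← hXe, B_comm (N F) (V i), B_comm (N F) (V j), (hNF i).2.2 hi.1,
      (hNF j).2.2 hj.1] at this
    rw [B_comm, this]; ring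
  have y2 : B X (N G) = 0 := by
    have := B_lin (N G) (V i) (V j) 1 1
    rw [one_smul, one_smul, ← hXe, B_comm (N G) (V i), B_comm (N G) (V j), (hNG i).2.2 hi.2,
      (hNG j).2.2 hj.2] at this
    rw [B_comm, this]; ring
  set b := B (N F) (N G) with hb
  have q1 : α + β * b = 0 := by
    have := B_lin (N F) (N F) (N G) α β
    rw [hαβ, B_comm, y1, nF] at this
    linarith
  have q2 : α * b + β = 0 := by
    have := B_lin (N G) (N F) (N G) α β
    rw [hαβ, B_comm, y2, B_comm (N G) (N F), nG] at this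
    linarith
  have r1 : B (V k) X = β * B (V k) (N G) := by
    rw [← hαβ, B_lin, z1]; ring
  have r2 : B (V k') X = α * B (V k') (N F) := by
    rw [← hαβ, B_lin, z3]; ring
  have hβ : 0 < β := by
    by_contra hcon
    have := mul_nonneg_of_nonpos_of_nonpos (not_lt.1 hcon) z2.le
    linarith
  have hα : 0 < α := by
    by_contra hcon
    have := mul_nonneg_of_nonpos_of_nonpos (not_lt.1 hcon) z4.le
    linarith
  have hαβ' : α = β := by
    have h4 : α ^ 2 = β ^ 2 := by nlinarith [q1, q2]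
    have h5 := abs_eq_abs.2 (sq_eq_sq_iff_eq_or_eq_neg.1 h4)
    rwa [abs_of_pos hα, abs_of_pos hβ] at h5
  refine ⟨α⁻¹, inv_pos.2 hα, ?_⟩
  rw [← hαβ, ← hαβ', ← smul_add, smul_smul, inv_mul_cancel₀ hα.ne', one_smul]

end Pool.Agent.H224R3.ES.K3
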